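import Mathlib

/-!
# Statements for a common generalisation of Bombieri-Vinogradov and Barban-Davenport-Halberstam

`X P r` is the sum over the primitive characters modulo `r` of the squared modulus of the
character sum over the finite set `P` of primes.
-/

set_option autoImplicit false

namespace Pool.Agent.Y856.Hy

open Finset

/-- the primes `p ≤ N` with `p ≡ a (mod d)` -/
def PA (N d a : ℕ) : Finset ℕ := (Icc 1 N).filter (fun p => p.Prime ∧ p ≡ a [MOD d])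

open Classical in
/-- sum over the primitive characters modulo `r` of `|∑_{n ∈ P} χ(n)|²` -/
noncomputable def X (P : Finset ℕ) (r : ℕ) : ℝ :=
  ∑ χ ∈ (univ : Finset (DirichletCharacter ℂ r)).filter (fun χ => χ.IsPrimitive),
    ‖∑ n ∈ P, χ (n : ZMod r)‖ ^ 2

/-- `li x = ∫_2^x dt / log t` -/
noncomputable def li (x : ℝ) : ℝ := ∫ t in (2 : ℝ)..x, 1 / Real.log t

/-- HY1: large sieve for an arithmetic progression, large conductors. For `d ≥ 1`, `K ≥ 1` and every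
finite set `P` of integers in `[1, N]`, all congruent to `a` modulo `d`. -/
def S_ls : Prop := ∃ C : ℝ, 0 < C ∧ ∀ (N d a K F : ℕ), 1 ≤ d → 1 ≤ K → ∀ P : Finset ℕ,
  (∀ n ∈ P, 1 ≤ n ∧ n ≤ N ∧ n ≡ a [MOD d]) →
  ∑ r ∈ (Ioc K F).filter (fun r => r.Coprime d), (1 / (Nat.totient r : ℝ)) * X P r ≤
    C * ((F : ℝ) + ((N : ℝ) / d + 1) / K) * P.card

/-- HY2: orthogonality and reduction to primitive characters. -/
def S_orth : Prop := ∀ (e : ℕ), 1 ≤ e → ∀ P : Finset ℕ, (∀ p ∈ P, p.Prime) →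
  ∑ b ∈ (Icc 1 e).filter (fun b => b.Coprime e),
    (((P.filter (fun p => p ≡ b [MOD e])).card : ℝ) -
      ((P.filter (fun p => p.Coprime e)).card : ℝ) / (Nat.totient e : ℝ)) ^ 2 ≤
  (2 / (Nat.totient e : ℝ)) * ∑ r ∈ e.divisors.filter (fun r => 1 < r), X P r +
    2 * (e.primeFactors.card : ℝ) ^ 2

/-- HY3: small conductors, from the Bombieri-Vinogradov theorem. -/
def S_small : Prop := ∀ A : ℕ, ∃ (B : ℕ) (C : ℝ), 0 < C ∧ ∀ x : ℝ, 3 ≤ x → ∀ (D K : ℕ),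
  (D : ℝ) ≤ Real.sqrt x / Real.log x ^ B → (K : ℝ) ≤ Real.log x ^ A →
  ∀ a : ℕ → ℕ, (∀ d, 1 ≤ d → (a d).Coprime d) →
  ∑ d ∈ Icc 1 D, (Nat.totient d : ℝ) *
    ∑ r ∈ (Ioc 1 K).filter (fun r => r.Coprime d),
      (1 / (Nat.totient r : ℝ)) * X (PA ⌊x⌋₊ d (a d)) r ≤ C * (x ^ 2 / Real.log x ^ A)

/-- HY4: the main term, from the Bombieri-Vinogradov theorem. -/
def S_mt : Prop := ∀ A : ℕ, ∃ (B : ℕ) (C : ℝ), 0 < C ∧ ∀ x : ℝ, 3 ≤ x → ∀ (D : ℕ),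
  (D : ℝ) ≤ Real.sqrt x / Real.log x ^ B →
  ∀ a : ℕ → ℕ, (∀ d, 1 ≤ d → (a d).Coprime d) →
  ∑ d ∈ Icc 1 D, (Nat.totient d : ℝ) *
    (((PA ⌊x⌋₊ d (a d)).card : ℝ) - li x / (Nat.totient d : ℝ)) ^ 2 ≤
    C * (x ^ 2 / Real.log x ^ A)

/-- final form -/
def S_hyb : Prop := ∀ A : ℕ, ∃ (B : ℕ) (C : ℝ), 0 < C ∧ ∀ x : ℝ, 3 ≤ x → ∀ (D F : ℕ),
  (D : ℝ) ≤ Real.sqrt x / Real.log x ^ B → (D : ℝ) * F ≤ x / Real.log x ^ B →
  ∀ a : ℕ → ℕ, (∀ d, 1 ≤ d → (a d).Coprime d) →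
  ∑ d ∈ Icc 1 D, (Nat.totient d : ℝ) *
    ∑ e ∈ (Icc 1 F).filter (fun e => e.Coprime d), ∑ b ∈ (Icc 1 e).filter (fun b => b.Coprime e),
      ((((Icc 1 ⌊x⌋₊).filter (fun p => p.Prime ∧ p ≡ a d [MOD d] ∧ p ≡ b [MOD e])).card : ℝ) -
        li x / (Nat.totient (d * e) : ℝ)) ^ 2 ≤ C * (x ^ 2 / Real.log x ^ A)

end Pool.Agent.Y856.Hy
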