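import Pool.Agent.Y811.Hy.LS
import Pool.Agent.Y141.Hy.Orth
import Pool.Agent.Y833.HY.Small

/-!
# Assembly of the common generalisation of Bombieri-Vinogradov and Barban-Davenport-Halberstam, 1
-/

set_option autoImplicit false

namespace Pool.Agent.Y856.Hy

open Finset

theorem X_nonneg (P : Finset ℕ) (r : ℕ) : 0 ≤ X P r := by
  unfold X
  exact Finset.sum_nonneg (fun _ _ => by positivity)

/-- the primes of `P` not coprime to `e` are few -/
theorem notcoprime_le (P : Finset ℕ) (hP : ∀ p ∈ P, p.Prime) {e : ℕ} (he : 1 ≤ e) :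
    0 ≤ (P.card : ℝ) - ((P.filter (fun p => p.Coprime e)).card : ℝ) ∧
    (P.card : ℝ) - ((P.filter (fun p => p.Coprime e)).card : ℝ) ≤ e.primeFactors.card := by
  have h1 : (P.filter (fun p => p.Coprime e)).card + (P.filter (fun p => ¬ p.Coprime e)).card =
      P.card := Finset.card_filter_add_card_filter_not _
  have h2 : (P.filter (fun p => ¬ p.Coprime e)).card ≤ e.primeFactors.card := by
    apply Finset.card_le_card
    intro p hp
    rw [mem_filter] at hp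
    have hpp := hP p hp.1
    rw [Nat.mem_primeFactors]
    refine ⟨hpp, ?_, by omega⟩
    by_contra h
    exact hp.2 ((Nat.Prime.coprime_iff_not_dvd hpp).2 h)
  have h1' : ((P.filter (fun p => p.Coprime e)).card : ℝ) +
      (P.filter (fun p => ¬ p.Coprime e)).card = P.card := by exact_mod_cast h1
  have h2' : ((P.filter (fun p => ¬ p.Coprime e)).card : ℝ) ≤ e.primeFactors.card := by
    exact_mod_cast h2
  have h3 : (0 : ℝ) ≤ (P.filter (fun p => ¬ p.Coprime e)).card := Nat.cast_nonneg _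
  constructor <;> linarith

theorem card_res (e : ℕ) (_he : 1 ≤ e) :
    (((Icc 1 e).filter (fun b => b.Coprime e)).card : ℝ) = Nat.totient e := by
  have h : (Icc 1 e).filter (fun b => b.Coprime e) =
      (Ico 1 (1 + e)).filter (fun b => Nat.Coprime e b) := by
    ext b
    rw [mem_filter, mem_filter, mem_Icc, mem_Ico, Nat.coprime_comm]
    constructor
    · rintro ⟨⟨h1, h2⟩, h3⟩; exact ⟨⟨h1, by omega⟩, h3⟩
    · rintro ⟨⟨h1, h2⟩, h3⟩; exact ⟨⟨h1, by omega⟩, h3⟩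
  rw [h, Nat.filter_coprime_Ico_eq_totient]

/-- number of integers up to `N` in a residue class -/
theorem card_cls (N m l : ℕ) (hm : 1 ≤ m) :
    (((Icc 1 N).filter (fun n => n ≡ l [MOD m])).card : ℝ) ≤ (N : ℝ) / m + 1 := by
  have h1 : (((Ioc 0 N).filter (fun n => n ≡ l [MOD m])).card : ℤ) =
      max (⌊((N : ℚ) - l) / m⌋ - ⌊((0 : ℕ) - (l : ℚ)) / m⌋) 0 :=
    Nat.Ioc_filter_modEq_card 0 N (by omega) l
  have h2 : (Icc 1 N) = Ioc 0 N := by ext; simp [Nat.succ_le_iff]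
  rw [h2]
  have hm' : (0 : ℚ) < m := by exact_mod_cast hm
  have h3 : (⌊((N : ℚ) - l) / m⌋ : ℚ) ≤ ((N : ℚ) - l) / m := Int.floor_le _
  have h4 : ((0 : ℕ) - (l : ℚ)) / m - 1 < (⌊((0 : ℕ) - (l : ℚ)) / m⌋ : ℚ) := Int.sub_one_lt_floor _
  have h5 : ((((Ioc 0 N).filter (fun n => n ≡ l [MOD m])).card : ℤ) : ℚ) ≤ (N : ℚ) / m + 1 := by
    rw [h1]
    push_cast
    apply max_le
    · have : ((N : ℚ) - l) / m - (((0 : ℕ) - (l : ℚ)) / m - 1) = (N : ℚ) / m + 1 := by
        field_simp; push_cast; ring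
      push_cast at this h4 h3 ⊢
      linarith
    · positivity
  have h6 : ((((((Ioc 0 N).filter (fun n => n ≡ l [MOD m])).card : ℤ) : ℚ)) : ℝ) ≤
      (((N : ℚ) / m + 1 : ℚ) : ℝ) := by exact_mod_cast h5
  push_cast at h6
  exact h6

/-- one pair of moduli -/
theorem one_pair {d e : ℕ} (hd : 1 ≤ d) (he : 1 ≤ e) (hde : e.Coprime d) (P : Finset ℕ)
    (hP : ∀ p ∈ P, p.Prime) (Λ : ℝ) :
    ∑ b ∈ (Icc 1 e).filter (fun b => b.Coprime e),
      (((P.filter (fun p => p ≡ b [MOD e])).card : ℝ) - Λ / (Nat.totient (d * e) : ℝ)) ^ 2 ≤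
    (4 / (Nat.totient e : ℝ)) * ∑ r ∈ e.divisors.filter (fun r => 1 < r), X P r +
      8 * (e.primeFactors.card : ℝ) ^ 2 +
      (4 / (Nat.totient e : ℝ)) * ((P.card : ℝ) - Λ / (Nat.totient d : ℝ)) ^ 2 := by
  have hphie : (1 : ℝ) ≤ Nat.totient e := by exact_mod_cast Nat.totient_pos.2 he
  have hphid : (1 : ℝ) ≤ Nat.totient d := by exact_mod_cast Nat.totient_pos.2 hd
  have hphi : (Nat.totient (d * e) : ℝ) = Nat.totient d * Nat.totient e := by
    rw [Nat.totient_mul hde.symm]; push_cast; ring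
  set M : ℝ := ((P.filter (fun p => p.Coprime e)).card : ℝ) with hM
  set w : ℝ := (e.primeFactors.card : ℝ) with hw
  set T : ℝ := (P.card : ℝ) - Λ / (Nat.totient d : ℝ) with hT
  obtain ⟨hc1, hc2⟩ := notcoprime_le P hP he
  have hw0 : 0 ≤ w := Nat.cast_nonneg _
  have horth := Pool.Agent.Y141.Hy.t e he P hP
  have hpt : ∀ b : ℕ, (((P.filter (fun p => p ≡ b [MOD e])).card : ℝ) -
      Λ / (Nat.totient (d * e) : ℝ)) ^ 2 ≤
      2 * (((P.filter (fun p => p ≡ b [MOD e])).card : ℝ) - M / (Nat.totient e : ℝ)) ^ 2 +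
      (4 * w ^ 2 + 4 * T ^ 2) / (Nat.totient e : ℝ) ^ 2 := by
    intro b
    set c : ℝ := ((P.filter (fun p => p ≡ b [MOD e])).card : ℝ) with hc
    have h1 : c - Λ / (Nat.totient (d * e) : ℝ) = (c - M / (Nat.totient e : ℝ)) +
        (T - ((P.card : ℝ) - M)) / (Nat.totient e : ℝ) := by
      rw [hphi, hT]; field_simp; ring
    have h2 : (T - ((P.card : ℝ) - M)) ^ 2 ≤ 2 * T ^ 2 + 2 * w ^ 2 := by
      have h3 : ((P.card : ℝ) - M) ^ 2 ≤ w ^ 2 := by
        apply pow_le_pow_left₀ hc1 hc2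
      nlinarith [sq_nonneg (T + ((P.card : ℝ) - M))]
    have h3 : ((T - ((P.card : ℝ) - M)) / (Nat.totient e : ℝ)) ^ 2 ≤
        (2 * T ^ 2 + 2 * w ^ 2) / (Nat.totient e : ℝ) ^ 2 := by
      rw [div_pow]; gcongr
    have h4 : (4 * w ^ 2 + 4 * T ^ 2) / (Nat.totient e : ℝ) ^ 2 =
        2 * ((2 * T ^ 2 + 2 * w ^ 2) / (Nat.totient e : ℝ) ^ 2) := by ring
    rw [h1, h4]
    nlinarith [sq_nonneg ((c - M / (Nat.totient e : ℝ)) -
      (T - ((P.card : ℝ) - M)) / (Nat.totient e : ℝ))]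
  have hsum := Finset.sum_le_sum (fun b (_ : b ∈ (Icc 1 e).filter (fun b => b.Coprime e)) => hpt b)
  rw [sum_add_distrib, ← mul_sum, sum_const, nsmul_eq_mul, card_res e he] at hsum
  have h5 : (Nat.totient e : ℝ) * ((4 * w ^ 2 + 4 * T ^ 2) / (Nat.totient e : ℝ) ^ 2) =
      (4 / (Nat.totient e : ℝ)) * w ^ 2 + (4 / (Nat.totient e : ℝ)) * T ^ 2 := by
    field_simp
    
  rw [h5] at hsum
  have h6 : (4 / (Nat.totient e : ℝ)) * w ^ 2 ≤ 4 * w ^ 2 := by
    apply mul_le_mul_of_nonneg_right _ (by positivity)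
    rw [div_le_iff₀ (by linarith)]; linarith
  have h7 : 2 * ((2 / (Nat.totient e : ℝ)) * ∑ r ∈ e.divisors.filter (fun r => 1 < r), X P r +
    2 * w ^ 2) = (4 / (Nat.totient e : ℝ)) * ∑ r ∈ e.divisors.filter (fun r => 1 < r), X P r +
      4 * w ^ 2 := by ring
  linarith

end Pool.Agent.Y856.Hy
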