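import Pool.Agent.Y856.Hy.Asm1

/-!
# Assembly of the common generalisation of Bombieri-Vinogradov and Barban-Davenport-Halberstam, 2
-/

set_option autoImplicit false

namespace Pool.Agent.Y856.Hy

open Finset

theorem inner_sum (F r : ℕ) (hr : 1 ≤ r) :
    ∑ e ∈ (Icc 1 F).filter (fun e => r ∣ e), 1 / (Nat.totient e : ℝ) ≤
      (1 / (Nat.totient r : ℝ)) * ∑ k ∈ Icc 1 F, 1 / (Nat.totient k : ℝ) := by
  have hinj : Set.InjOn (fun k => r * k) (Icc 1 F : Set ℕ) := by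
    intro a _ b _ h
    exact Nat.eq_of_mul_eq_mul_left hr h
  calc ∑ e ∈ (Icc 1 F).filter (fun e => r ∣ e), 1 / (Nat.totient e : ℝ) ≤
      ∑ e ∈ (Icc 1 F).image (fun k => r * k), 1 / (Nat.totient e : ℝ) := by
        apply Finset.sum_le_sum_of_subset_of_nonneg
        · intro e he
          rw [mem_filter, mem_Icc] at he
          obtain ⟨⟨h1, h2⟩, k, rfl⟩ := he
          rw [mem_image]
          refine ⟨k, ?_, rfl⟩
          rw [mem_Icc]
          have hk : 1 ≤ k := Nat.pos_of_ne_zero (by rintro rfl; simp at h1)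
          refine ⟨hk, le_trans ?_ h2⟩
          exact Nat.le_mul_of_pos_left k hr
        · intro _ _ _; positivity
    _ = ∑ k ∈ Icc 1 F, 1 / (Nat.totient (r * k) : ℝ) := by
        rw [Finset.sum_image hinj]
    _ ≤ ∑ k ∈ Icc 1 F, (1 / (Nat.totient r : ℝ)) * (1 / (Nat.totient k : ℝ)) := by
        apply Finset.sum_le_sum
        intro k hk
        rw [mem_Icc] at hk
        have h1 : (0 : ℝ) < Nat.totient r := by exact_mod_cast Nat.totient_pos.2 hr
        have h2 : (0 : ℝ) < Nat.totient k := by exact_mod_cast Nat.totient_pos.2 hk.1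
        have h3 : (Nat.totient r : ℝ) * Nat.totient k ≤ Nat.totient (r * k) := by
          exact_mod_cast Nat.totient_super_multiplicative r k
        have h4 : (1 / (Nat.totient r : ℝ)) * (1 / (Nat.totient k : ℝ)) =
            1 / ((Nat.totient r : ℝ) * Nat.totient k) := by field_simp
        rw [h4]
        exact one_div_le_one_div_of_le (by positivity) h3
    _ = _ := by rw [mul_sum]

theorem swap_sum (F d : ℕ) (P : Finset ℕ) :
    ∑ e ∈ (Icc 1 F).filter (fun e => e.Coprime d), (1 / (Nat.totient e : ℝ)) *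
      ∑ r ∈ e.divisors.filter (fun r => 1 < r), X P r ≤
    (∑ k ∈ Icc 1 F, 1 / (Nat.totient k : ℝ)) *
      ∑ r ∈ (Ioc 1 F).filter (fun r => r.Coprime d), (1 / (Nat.totient r : ℝ)) * X P r := by
  have h1 : ∑ e ∈ (Icc 1 F).filter (fun e => e.Coprime d), (1 / (Nat.totient e : ℝ)) *
      ∑ r ∈ e.divisors.filter (fun r => 1 < r), X P r ≤
      ∑ e ∈ (Icc 1 F).filter (fun e => e.Coprime d),
        ∑ r ∈ (Ioc 1 F).filter (fun r => r.Coprime d),
          if r ∣ e then (1 / (Nat.totient e : ℝ)) * X P r else 0 := by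
    apply Finset.sum_le_sum
    intro e he
    rw [mem_filter, mem_Icc] at he
    rw [mul_sum, ← sum_filter]
    apply Finset.sum_le_sum_of_subset_of_nonneg
    · intro r hr
      rw [mem_filter, Nat.mem_divisors] at hr
      rw [mem_filter, mem_filter, mem_Ioc]
      refine ⟨⟨⟨hr.2, (Nat.le_of_dvd (by omega) hr.1.1).trans he.1.2⟩, ?_⟩, hr.1.1⟩
      exact Nat.Coprime.coprime_dvd_left hr.1.1 he.2
    · intro r _ _
      have := X_nonneg P r
      positivity
  refine h1.trans ?_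
  rw [sum_comm, mul_sum]
  apply Finset.sum_le_sum
  intro r hr
  rw [mem_filter, mem_Ioc] at hr
  have h2 : ∑ e ∈ (Icc 1 F).filter (fun e => e.Coprime d),
      (if r ∣ e then (1 / (Nat.totient e : ℝ)) * X P r else 0) ≤
      (∑ e ∈ (Icc 1 F).filter (fun e => r ∣ e), 1 / (Nat.totient e : ℝ)) * X P r := by
    rw [sum_mul, ← sum_filter]
    apply Finset.sum_le_sum_of_subset_of_nonneg
    · intro e he
      rw [mem_filter, mem_filter] at he
      rw [mem_filter]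
      exact ⟨he.1.1, he.2⟩
    · intro e _ _
      have := X_nonneg P r
      positivity
  refine h2.trans ?_
  have h3 := inner_sum F r (by omega)
  calc _ ≤ ((1 / (Nat.totient r : ℝ)) * ∑ k ∈ Icc 1 F, 1 / (Nat.totient k : ℝ)) * X P r :=
        mul_le_mul_of_nonneg_right h3 (X_nonneg P r)
    _ = _ := by ring

/-- one modulus `d`, all `e` -/
theorem one_d {d F : ℕ} (hd : 1 ≤ d) (P : Finset ℕ) (hP : ∀ p ∈ P, p.Prime) (Λ : ℝ) (L : ℝ)
    (hL : 1 ≤ L) (hF : Real.log F ≤ L) :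
    ∑ e ∈ (Icc 1 F).filter (fun e => e.Coprime d),
      ∑ b ∈ (Icc 1 e).filter (fun b => b.Coprime e),
      (((P.filter (fun p => p ≡ b [MOD e])).card : ℝ) - Λ / (Nat.totient (d * e) : ℝ)) ^ 2 ≤
    16 * L ^ 2 * ∑ r ∈ (Ioc 1 F).filter (fun r => r.Coprime d), (1 / (Nat.totient r : ℝ)) * X P r +
      32 * L ^ 2 * F + 16 * L ^ 2 * ((P.card : ℝ) - Λ / (Nat.totient d : ℝ)) ^ 2 := by
  set T : ℝ := (P.card : ℝ) - Λ / (Nat.totient d : ℝ) with hT
  have hH : ∑ k ∈ Icc 1 F, 1 / (Nat.totient k : ℝ) ≤ 4 * L ^ 2 := by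
    refine (Pool.Agent.H441R3.BV.sum_inv_tot F).trans ?_
    have h0 : 0 ≤ Real.log F := Real.log_natCast_nonneg F
    nlinarith
  have h1 : ∑ e ∈ (Icc 1 F).filter (fun e => e.Coprime d),
      ∑ b ∈ (Icc 1 e).filter (fun b => b.Coprime e),
      (((P.filter (fun p => p ≡ b [MOD e])).card : ℝ) - Λ / (Nat.totient (d * e) : ℝ)) ^ 2 ≤
      ∑ e ∈ (Icc 1 F).filter (fun e => e.Coprime d),
        (4 * ((1 / (Nat.totient e : ℝ)) * ∑ r ∈ e.divisors.filter (fun r => 1 < r), X P r) +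
          32 * L ^ 2 + 4 * T ^ 2 * (1 / (Nat.totient e : ℝ))) := by
    apply Finset.sum_le_sum
    intro e he
    rw [mem_filter, mem_Icc] at he
    have h2 := one_pair hd he.1.1 he.2 P hP Λ
    have h3 : (e.primeFactors.card : ℝ) ≤ 2 * L := by
      refine (Pool.Agent.H398R2.BV.omega_le_log e he.1.1).trans ?_
      have : Real.log e ≤ Real.log F :=
        Real.log_le_log (by exact_mod_cast he.1.1) (by exact_mod_cast he.1.2)
      linarith
    have h4 : 8 * (e.primeFactors.card : ℝ) ^ 2 ≤ 32 * L ^ 2 := by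
      have h5 : (e.primeFactors.card : ℝ) ^ 2 ≤ (2 * L) ^ 2 :=
        pow_le_pow_left₀ (Nat.cast_nonneg _) h3 2
      nlinarith
    have h5 : (4 / (Nat.totient e : ℝ)) * ∑ r ∈ e.divisors.filter (fun r => 1 < r), X P r =
        4 * ((1 / (Nat.totient e : ℝ)) * ∑ r ∈ e.divisors.filter (fun r => 1 < r), X P r) := by
      ring
    have h6 : (4 / (Nat.totient e : ℝ)) * T ^ 2 = 4 * T ^ 2 * (1 / (Nat.totient e : ℝ)) := by ring
    linarith
  refine h1.trans ?_
  rw [sum_add_distrib, sum_add_distrib, ← mul_sum, sum_const, nsmul_eq_mul]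
  have h13 : ∑ e ∈ (Icc 1 F).filter (fun e => e.Coprime d), 4 * T ^ 2 *
      (1 / (Nat.totient e : ℝ)) = 4 * T ^ 2 * ∑ e ∈ (Icc 1 F).filter (fun e => e.Coprime d),
      1 / (Nat.totient e : ℝ) := (mul_sum _ _ _).symm
  rw [h13]
  have h7 := swap_sum F d P
  have hS0 : 0 ≤ ∑ r ∈ (Ioc 1 F).filter (fun r => r.Coprime d),
      (1 / (Nat.totient r : ℝ)) * X P r :=
    Finset.sum_nonneg (fun r _ => by have := X_nonneg P r; positivity)
  have h8 : (∑ k ∈ Icc 1 F, 1 / (Nat.totient k : ℝ)) *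
      ∑ r ∈ (Ioc 1 F).filter (fun r => r.Coprime d), (1 / (Nat.totient r : ℝ)) * X P r ≤
      4 * L ^ 2 * ∑ r ∈ (Ioc 1 F).filter (fun r => r.Coprime d),
        (1 / (Nat.totient r : ℝ)) * X P r := mul_le_mul_of_nonneg_right hH hS0
  have h9 : (((Icc 1 F).filter (fun e => e.Coprime d)).card : ℝ) ≤ F := by
    have : ((Icc 1 F).filter (fun e => e.Coprime d)).card ≤ F := by
      refine (card_filter_le _ _).trans ?_
      rw [Nat.card_Icc]; omega
    exact_mod_cast this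
  have h10 : ∑ e ∈ (Icc 1 F).filter (fun e => e.Coprime d), 1 / (Nat.totient e : ℝ) ≤
      4 * L ^ 2 := by
    refine le_trans ?_ hH
    apply Finset.sum_le_sum_of_subset_of_nonneg (Finset.filter_subset _ _)
    intro _ _ _; positivity
  have h11 : 4 * T ^ 2 * ∑ e ∈ (Icc 1 F).filter (fun e => e.Coprime d),
      1 / (Nat.totient e : ℝ) ≤ 4 * T ^ 2 * (4 * L ^ 2) :=
    mul_le_mul_of_nonneg_left h10 (by positivity)
  have h12 : (((Icc 1 F).filter (fun e => e.Coprime d)).card : ℝ) * (32 * L ^ 2) ≤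
      F * (32 * L ^ 2) := mul_le_mul_of_nonneg_right h9 (by positivity)
  linarith

/-- large conductors, all `d` -/
theorem large_sum {C : ℝ} (hC : 0 < C) (hls : ∀ (N d a K F : ℕ), 1 ≤ d → 1 ≤ K → ∀ P : Finset ℕ,
    (∀ n ∈ P, 1 ≤ n ∧ n ≤ N ∧ n ≡ a [MOD d]) →
    ∑ r ∈ (Ioc K F).filter (fun r => r.Coprime d), (1 / (Nat.totient r : ℝ)) * X P r ≤
      C * ((F : ℝ) + ((N : ℝ) / d + 1) / K) * P.card) {x : ℝ} (hx : 3 ≤ x) {D F K : ℕ}
    (hK : 1 ≤ K) (hD : (D : ℝ) ≤ x) (a : ℕ → ℕ) :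
    ∑ d ∈ Icc 1 D, (Nat.totient d : ℝ) *
      ∑ r ∈ (Ioc K F).filter (fun r => r.Coprime d),
        (1 / (Nat.totient r : ℝ)) * X (PA ⌊x⌋₊ d (a d)) r ≤
    2 * C * x * ((D : ℝ) * F) + 4 * C * x ^ 2 / K * (1 + Real.log x) := by
  have hx0 : 0 < x := by linarith
  have hK0 : (0 : ℝ) < K := by exact_mod_cast hK
  have hfl : (⌊x⌋₊ : ℝ) ≤ x := Nat.floor_le hx0.le
  have h1 : ∀ d ∈ Icc 1 D, (Nat.totient d : ℝ) *
      ∑ r ∈ (Ioc K F).filter (fun r => r.Coprime d),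
        (1 / (Nat.totient r : ℝ)) * X (PA ⌊x⌋₊ d (a d)) r ≤
      2 * C * x * F + 4 * C * x ^ 2 / K * (1 / (d : ℝ)) := by
    intro d hd
    rw [mem_Icc] at hd
    have hd0 : (0 : ℝ) < d := by exact_mod_cast hd.1
    have hdx : (d : ℝ) ≤ x := le_trans (by exact_mod_cast hd.2) hD
    have h2 := hls ⌊x⌋₊ d (a d) K F hd.1 hK (PA ⌊x⌋₊ d (a d)) (by
      intro n hn
      unfold PA at hn
      rw [mem_filter, mem_Icc] at hn
      exact ⟨hn.1.1, hn.1.2, hn.2.2⟩)
    have hone : (⌊x⌋₊ : ℝ) / d + 1 ≤ 2 * x / d := by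
      have h3 : (⌊x⌋₊ : ℝ) / d ≤ x / d := by gcongr
      have h4 : 1 ≤ x / d := by rwa [le_div_iff₀ hd0, one_mul]
      have h5 : 2 * x / d = x / d + x / d := by ring
      linarith
    have hcard : ((PA ⌊x⌋₊ d (a d)).card : ℝ) ≤ 2 * x / d := by
      refine le_trans ?_ ((Pool.Agent.Y856.Hy.card_cls ⌊x⌋₊ d (a d) hd.1).trans hone)
      unfold PA
      exact_mod_cast Finset.card_le_card (fun p hp => by
        rw [mem_filter] at hp ⊢
        exact ⟨hp.1, hp.2.2⟩)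
    have hphi : (Nat.totient d : ℝ) ≤ d := by exact_mod_cast Nat.totient_le d
    have hS0 : 0 ≤ ∑ r ∈ (Ioc K F).filter (fun r => r.Coprime d),
        (1 / (Nat.totient r : ℝ)) * X (PA ⌊x⌋₊ d (a d)) r :=
      Finset.sum_nonneg (fun r _ => by have := X_nonneg (PA ⌊x⌋₊ d (a d)) r; positivity)
    calc _ ≤ (d : ℝ) * ∑ r ∈ (Ioc K F).filter (fun r => r.Coprime d),
        (1 / (Nat.totient r : ℝ)) * X (PA ⌊x⌋₊ d (a d)) r :=
          mul_le_mul_of_nonneg_right hphi hS0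
      _ ≤ (d : ℝ) * (C * ((F : ℝ) + ((⌊x⌋₊ : ℝ) / d + 1) / K) * (PA ⌊x⌋₊ d (a d)).card) :=
          mul_le_mul_of_nonneg_left h2 hd0.le
      _ ≤ (d : ℝ) * (C * ((F : ℝ) + (2 * x / d) / K) * (2 * x / d)) := by gcongr
      _ = _ := by field_simp; ring
  refine (Finset.sum_le_sum h1).trans ?_
  rw [sum_add_distrib, sum_const, nsmul_eq_mul, Nat.card_Icc, ← mul_sum]
  have h2 : ∑ d ∈ Icc 1 D, 1 / (d : ℝ) ≤ 1 + Real.log x := by
    have h3 : ((harmonic D : ℚ) : ℝ) ≤ 1 + Real.log D := harmonic_le_one_add_log D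
    have h4 : ∑ d ∈ Icc 1 D, 1 / (d : ℝ) = ((harmonic D : ℚ) : ℝ) := by
      rw [harmonic_eq_sum_Icc]; push_cast
      exact Finset.sum_congr rfl (fun _ _ => one_div _)
    rw [h4]
    refine h3.trans ?_
    rcases Nat.eq_zero_or_pos D with h | h
    · subst h; simp; exact Real.log_nonneg (by linarith)
    · have : Real.log D ≤ Real.log x := Real.log_le_log (by exact_mod_cast h) hD
      linarith
  have h3 : (4 * C * x ^ 2 / K) * ∑ d ∈ Icc 1 D, 1 / (d : ℝ) ≤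
      (4 * C * x ^ 2 / K) * (1 + Real.log x) := mul_le_mul_of_nonneg_left h2 (by positivity)
  have h4 : ((D + 1 - 1 : ℕ) : ℝ) * (2 * C * x * F) = 2 * C * x * ((D : ℝ) * F) := by
    rw [Nat.add_sub_cancel]; ring
  rw [h4]
  linarith

end Pool.Agent.Y856.Hy
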