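import Pool.Agent.Y856.Hy.Asm2

/-!
# Assembly of the common generalisation of Bombieri-Vinogradov and Barban-Davenport-Halberstam, 3
-/

set_option autoImplicit false

namespace Pool.Agent.Y856.Hy

open Finset

theorem split_r (P : Finset ℕ) (K F d : ℕ) :
    ∑ r ∈ (Ioc 1 F).filter (fun r => r.Coprime d), (1 / (Nat.totient r : ℝ)) * X P r ≤
    ∑ r ∈ (Ioc 1 K).filter (fun r => r.Coprime d), (1 / (Nat.totient r : ℝ)) * X P r +
    ∑ r ∈ (Ioc K F).filter (fun r => r.Coprime d), (1 / (Nat.totient r : ℝ)) * X P r := by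
  classical
  have h0 : ∀ r, 0 ≤ (1 / (Nat.totient r : ℝ)) * X P r := fun r => by
    have := X_nonneg P r; positivity
  calc _ ≤ ∑ r ∈ ((Ioc 1 K).filter (fun r => r.Coprime d)) ∪
        ((Ioc K F).filter (fun r => r.Coprime d)), (1 / (Nat.totient r : ℝ)) * X P r := by
        apply Finset.sum_le_sum_of_subset_of_nonneg
        · intro r hr
          rw [mem_filter, mem_Ioc] at hr
          rw [mem_union, mem_filter, mem_filter, mem_Ioc, mem_Ioc]
          rcases le_or_gt r K with h | h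
          · left; exact ⟨⟨hr.1.1, h⟩, hr.2⟩
          · right; exact ⟨⟨h, hr.1.2⟩, hr.2⟩
        · intro r _ _; exact h0 r
    _ ≤ _ := by
        have := Finset.sum_union_inter (s₁ := (Ioc 1 K).filter (fun r => r.Coprime d))
          (s₂ := (Ioc K F).filter (fun r => r.Coprime d))
          (f := fun r => (1 / (Nat.totient r : ℝ)) * X P r)
        have h2 : 0 ≤ ∑ r ∈ ((Ioc 1 K).filter (fun r => r.Coprime d)) ∩
          ((Ioc K F).filter (fun r => r.Coprime d)), (1 / (Nat.totient r : ℝ)) * X P r :=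
          Finset.sum_nonneg (fun r _ => h0 r)
        linarith

theorem filt (N d a b e : ℕ) :
    (Icc 1 N).filter (fun p => p.Prime ∧ p ≡ a [MOD d] ∧ p ≡ b [MOD e]) =
      (PA N d a).filter (fun p => p ≡ b [MOD e]) := by
  unfold PA
  rw [Finset.filter_filter]
  apply Finset.filter_congr
  intro p _
  tauto

theorem hyb : S_hyb := by
  intro A
  obtain ⟨Bs, Cs, hCs, hs⟩ := Pool.Agent.Y833.HY.small (A + 4)
  obtain ⟨Bm, Cm, hCm, hm⟩ := Pool.Agent.Y833.HY.mt (A + 4)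
  obtain ⟨Cl, hCl, hl⟩ := Pool.Agent.Y811.Hy.t
  refine ⟨max (max Bs Bm) (A + 4), 16 * Cs + 288 * Cl + 32 + 16 * Cm, by positivity, ?_⟩
  intro x hx D F hD hDF a ha
  set B := max (max Bs Bm) (A + 4) with hB
  set L := Real.log x with hL
  have hx0 : 0 < x := by linarith
  have hL1 : 1 ≤ L := by
    rw [hL, Real.le_log_iff_exp_le hx0]
    have := Real.exp_one_lt_d9
    linarith
  have hL0 : 0 < L := by linarith
  have hpow1 : ∀ n : ℕ, 1 ≤ L ^ n := fun n => one_le_pow₀ hL1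
  have hsq0 : 0 ≤ Real.sqrt x := Real.sqrt_nonneg x
  have hsqx : Real.sqrt x ≤ x := by
    rw [Real.sqrt_le_left hx0.le]
    nlinarith
  have hDx : (D : ℝ) ≤ x := by
    refine hD.trans ((div_le_self hsq0 (hpow1 B)).trans hsqx)
  rcases Nat.eq_zero_or_pos D with hD0 | hD1
  · subst hD0
    simp only [Icc_eq_empty (show ¬ (1 ≤ 0) by omega), sum_empty]
    positivity
  have hD1' : (1 : ℝ) ≤ D := by exact_mod_cast hD1
  have hF0 : (0 : ℝ) ≤ F := Nat.cast_nonneg _
  have hFx : (F : ℝ) ≤ x := by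
    have h1 : (F : ℝ) ≤ D * F := by nlinarith
    exact h1.trans (hDF.trans (div_le_self hx0.le (hpow1 B)))
  have hlogF : Real.log F ≤ L := by
    rcases Nat.eq_zero_or_pos F with h | h
    · rw [h]; simp; exact hL0.le
    · exact Real.log_le_log (by exact_mod_cast h) hFx
  have hBs : Real.sqrt x / L ^ B ≤ Real.sqrt x / L ^ Bs := by
    apply div_le_div_of_nonneg_left hsq0 (by positivity)
    exact pow_le_pow_right₀ hL1 (le_trans (le_max_left _ _) (le_max_left _ _))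
  have hBm : Real.sqrt x / L ^ B ≤ Real.sqrt x / L ^ Bm := by
    apply div_le_div_of_nonneg_left hsq0 (by positivity)
    exact pow_le_pow_right₀ hL1 (le_trans (le_max_right _ _) (le_max_left _ _))
  have hBA : L ^ (A + 4) ≤ L ^ B := pow_le_pow_right₀ hL1 (le_max_right _ _)
  set K := ⌊L ^ (A + 4)⌋₊ with hK
  have hK1 : 1 ≤ K := Nat.le_floor (by exact_mod_cast hpow1 _)
  have hK1' : (1 : ℝ) ≤ K := by exact_mod_cast hK1
  have hKle : (K : ℝ) ≤ L ^ (A + 4) := Nat.floor_le (by positivity)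
  have hKge : L ^ (A + 4) ≤ 2 * K := by
    have := Nat.lt_floor_add_one (L ^ (A + 4))
    rw [← hK] at this
    linarith
  set Q := x ^ 2 / L ^ (A + 4) with hQ
  have hQ0 : 0 < Q := by positivity
  -- the four sums
  have hS1 := hs x hx D K (hD.trans hBs) hKle a ha
  have hS4 := hm x hx D (hD.trans hBm) a ha
  have hS2 := large_sum hCl hl hx hK1 hDx a (F := F)
  rw [← hL, ← hQ] at hS1 hS4
  have hS2' : 2 * Cl * x * ((D : ℝ) * F) + 4 * Cl * x ^ 2 / K * (1 + Real.log x) ≤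
      18 * Cl * (L * Q) := by
    have h1 : x * ((D : ℝ) * F) ≤ Q := by
      calc x * ((D : ℝ) * F) ≤ x * (x / L ^ B) := mul_le_mul_of_nonneg_left hDF hx0.le
        _ = x ^ 2 / L ^ B := by ring
        _ ≤ Q := by
          rw [hQ]
          exact div_le_div_of_nonneg_left (by positivity) (by positivity) hBA
    have h2 : x ^ 2 / K ≤ 2 * Q := by
      rw [hQ, div_le_iff₀ (by linarith), mul_div_assoc', div_mul_eq_mul_div,
        le_div_iff₀ (by positivity)]
      nlinarith [sq_nonneg x]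
    have h3 : 1 + Real.log x ≤ 2 * L := by rw [← hL]; linarith
    have h4 : x ^ 2 / K * (1 + Real.log x) ≤ 2 * Q * (2 * L) :=
      mul_le_mul h2 h3 (by rw [← hL]; linarith) (by positivity)
    have h5 : Q ≤ L * Q := by nlinarith
    calc _ = 2 * Cl * (x * ((D : ℝ) * F)) + 4 * Cl * (x ^ 2 / K * (1 + Real.log x)) := by ring
      _ ≤ 2 * Cl * (L * Q) + 4 * Cl * (2 * Q * (2 * L)) := by
        have h6 := mul_le_mul_of_nonneg_left (h1.trans h5) (show 0 ≤ 2 * Cl by positivity)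
        have h7 := mul_le_mul_of_nonneg_left h4 (show 0 ≤ 4 * Cl by positivity)
        linarith
      _ = _ := by ring
  have hS3 : ∑ d ∈ Icc 1 D, (Nat.totient d : ℝ) * (F : ℝ) ≤ Q := by
    have h1 : ∑ d ∈ Icc 1 D, (Nat.totient d : ℝ) * (F : ℝ) ≤ ∑ d ∈ Icc 1 D, (D : ℝ) * F := by
      apply Finset.sum_le_sum
      intro d hd
      rw [mem_Icc] at hd
      have h2 : (Nat.totient d : ℝ) ≤ D := by exact_mod_cast (Nat.totient_le d).trans hd.2
      exact mul_le_mul_of_nonneg_right h2 hF0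
    rw [sum_const, nsmul_eq_mul, Nat.card_Icc, Nat.add_sub_cancel] at h1
    refine h1.trans ?_
    calc (D : ℝ) * ((D : ℝ) * F) ≤ x * (x / L ^ B) :=
          mul_le_mul hDx hDF (by positivity) hx0.le
      _ = x ^ 2 / L ^ B := by ring
      _ ≤ Q := by
        rw [hQ]
        exact div_le_div_of_nonneg_left (by positivity) (by positivity) hBA
  -- termwise bound
  have hterm : ∀ d ∈ Icc 1 D, (Nat.totient d : ℝ) *
      ∑ e ∈ (Icc 1 F).filter (fun e => e.Coprime d), ∑ b ∈ (Icc 1 e).filter (fun b => b.Coprime e),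
      ((((Icc 1 ⌊x⌋₊).filter (fun p => p.Prime ∧ p ≡ a d [MOD d] ∧ p ≡ b [MOD e])).card : ℝ) -
        li x / (Nat.totient (d * e) : ℝ)) ^ 2 ≤
      16 * L ^ 2 * ((Nat.totient d : ℝ) * ∑ r ∈ (Ioc 1 K).filter (fun r => r.Coprime d),
        (1 / (Nat.totient r : ℝ)) * X (PA ⌊x⌋₊ d (a d)) r) +
      16 * L ^ 2 * ((Nat.totient d : ℝ) * ∑ r ∈ (Ioc K F).filter (fun r => r.Coprime d),
        (1 / (Nat.totient r : ℝ)) * X (PA ⌊x⌋₊ d (a d)) r) +
      32 * L ^ 2 * ((Nat.totient d : ℝ) * (F : ℝ)) +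
      16 * L ^ 2 * ((Nat.totient d : ℝ) *
        (((PA ⌊x⌋₊ d (a d)).card : ℝ) - li x / (Nat.totient d : ℝ)) ^ 2) := by
    intro d hd
    rw [mem_Icc] at hd
    have hP : ∀ p ∈ PA ⌊x⌋₊ d (a d), p.Prime := by
      intro p hp
      unfold PA at hp
      rw [mem_filter] at hp
      exact hp.2.1
    have h1 := one_d (F := F) hd.1 (PA ⌊x⌋₊ d (a d)) hP (li x) L hL1 hlogF
    simp_rw [filt]
    have h2 := split_r (PA ⌊x⌋₊ d (a d)) K F d
    have hphi : (0 : ℝ) ≤ Nat.totient d := Nat.cast_nonneg _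
    have h3 : 16 * L ^ 2 * ∑ r ∈ (Ioc 1 F).filter (fun r => r.Coprime d),
        (1 / (Nat.totient r : ℝ)) * X (PA ⌊x⌋₊ d (a d)) r ≤
        16 * L ^ 2 * (∑ r ∈ (Ioc 1 K).filter (fun r => r.Coprime d),
        (1 / (Nat.totient r : ℝ)) * X (PA ⌊x⌋₊ d (a d)) r +
        ∑ r ∈ (Ioc K F).filter (fun r => r.Coprime d),
        (1 / (Nat.totient r : ℝ)) * X (PA ⌊x⌋₊ d (a d)) r) :=
      mul_le_mul_of_nonneg_left h2 (by positivity)
    have h4 := mul_le_mul_of_nonneg_left (h1.trans (add_le_add_left (add_le_add_left h3 _) _)) hphi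
    refine h4.trans (le_of_eq ?_)
    ring
  refine (Finset.sum_le_sum hterm).trans ?_
  rw [sum_add_distrib, sum_add_distrib, sum_add_distrib, ← mul_sum, ← mul_sum, ← mul_sum,
    ← mul_sum]
  have e1 := mul_le_mul_of_nonneg_left hS1 (show 0 ≤ 16 * L ^ 2 by positivity)
  have e2 := mul_le_mul_of_nonneg_left (hS2.trans hS2') (show 0 ≤ 16 * L ^ 2 by positivity)
  have e3 := mul_le_mul_of_nonneg_left hS3 (show 0 ≤ 32 * L ^ 2 by positivity)
  have e4 := mul_le_mul_of_nonneg_left hS4 (show 0 ≤ 16 * L ^ 2 by positivity)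
  have hfin : (16 * Cs + 288 * Cl + 32 + 16 * Cm) * (x ^ 2 / L ^ A) =
      (16 * Cs + 288 * Cl + 32 + 16 * Cm) * (L ^ 4 * Q) := by
    rw [hQ, pow_add]; field_simp
  rw [hfin]
  have f1 : L ^ 2 * Q ≤ L ^ 4 * Q :=
    mul_le_mul_of_nonneg_right (pow_le_pow_right₀ hL1 (by norm_num)) hQ0.le
  have f2 : L ^ 3 * Q ≤ L ^ 4 * Q :=
    mul_le_mul_of_nonneg_right (pow_le_pow_right₀ hL1 (by norm_num)) hQ0.le
  have g1 := mul_le_mul_of_nonneg_left f1 (show 0 ≤ 16 * Cs by positivity)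
  have g2 := mul_le_mul_of_nonneg_left f2 (show 0 ≤ 288 * Cl by positivity)
  have g3 := mul_le_mul_of_nonneg_left f1 (show (0 : ℝ) ≤ 32 by norm_num)
  have g4 := mul_le_mul_of_nonneg_left f1 (show 0 ≤ 16 * Cm by positivity)
  nlinarith [e1, e2, e3, e4, g1, g2, g3, g4]

end Pool.Agent.Y856.Hy
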